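import Pool.Agent.X133.GK.FinKV
import Pool.Agent.X133.GA.SMFin

/-! The profile of the resolvent for Gaussian potentials. -/

set_option autoImplicit false

open scoped BigOperators Topology
open MeasureTheory Filter

namespace Pool.Agent.X133.GK

open Pool.Agent.W788.BK
open Pool.Agent.W788.LD.Spec (S)
open Pool.Agent.W788.BK.Num
open Pool.Agent.TH794.QE (Rs)
open Pool.Agent.TH794.HK (Tg ph ph_norm Tg_diff)
open Pool.Agent.X133.GA

variable {d : ℕ}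

/-- **transfer of the characteristic function** -/
theorem ch_transfer {V V' : (Fin d → ℤ) → ℝ} {a : Fin d → ℤ} {E t : ℝ} {u v : (Fin d → ℤ) → ℂ}
    (hu : Gr d V a E t u) (hv : Gr d V' a E t v) (ht : 0 < t) (R : ℝ) (hR : 0 < R)
    (ha : ‖a‖ ≤ R) (hV : ∀ x : Fin d → ℤ, ‖x‖ < 2 * R → V x = V' x) (hd : 1 ≤ d)
    (p : Fin d → ℝ) :
    ‖∑' x, ph p (x - a) * ((‖u x‖ ^ 2 : ℝ) : ℂ) - ∑' x, ph p (x - a) * ((‖v x‖ ^ 2 : ℝ) : ℂ)‖ ≤
      8 * d * (t⁻¹) ^ 3 / R := by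
  have hd0 : (1 : ℝ) ≤ d := by exact_mod_cast hd
  have hz : ((E : ℂ) + (t : ℂ) * Complex.I).im = t := by simp
  have nu := gr_norm ht hu
  have nv := gr_norm ht hv
  have h1 := transfer R V V' hR hV ((E : ℂ) + (t : ℂ) * Complex.I) (by rw [hz]; exact ht) u v _
    hu.sq hv.sq (sum_delta a).1 (fun y hy => by
      rw [if_neg]
      rintro rfl
      linarith) hu.eq hv.eq
  rw [hz, (sum_delta a).2, mul_one] at h1
  obtain ⟨Δ, hΔ⟩ : ∃ Δ, Δ = 4 * d / (R * t ^ 2) := ⟨_, rfl⟩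
  have hΔ0 : 0 < Δ := by rw [hΔ]; positivity
  rw [← hΔ] at h1
  obtain ⟨r, hr⟩ : ∃ r, r = Δ * t / 2 := ⟨_, rfl⟩
  have hr0 : 0 < r := by rw [hr]; positivity
  have h3 : Summable fun y => ‖u y - v y‖ ^ 2 := by
    have := summ_add u (fun y => -v y) hu.sq (by simpa only [norm_neg] using hv.sq)
    simpa only [sub_eq_add_neg] using this
  have hs : Summable fun x => 1 / (2 * r) * ‖u x - v x‖ ^ 2 + r * (‖u x‖ ^ 2 + ‖v x‖ ^ 2) :=
    (h3.mul_left _).add ((hu.sq.add hv.sq).mul_left _)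
  have sp : ∀ w : (Fin d → ℤ) → ℂ, (Summable fun x => ‖w x‖ ^ 2) →
      Summable fun x => ph p (x - a) * ((‖w x‖ ^ 2 : ℝ) : ℂ) := by
    intro w hw
    refine Summable.of_norm_bounded hw fun x => ?_
    rw [norm_mul, ph_norm, one_mul, Complex.norm_real, Real.norm_of_nonneg (sq_nonneg _)]
  rw [← (sp u hu.sq).tsum_sub (sp v hv.sq)]
  have h5 : ∀ x, ‖ph p (x - a) * ((‖u x‖ ^ 2 : ℝ) : ℂ) - ph p (x - a) * ((‖v x‖ ^ 2 : ℝ) : ℂ)‖ ≤
      1 / (2 * r) * ‖u x - v x‖ ^ 2 + r * (‖u x‖ ^ 2 + ‖v x‖ ^ 2) := by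
    intro x
    rw [← mul_sub, norm_mul, ph_norm, one_mul, ← Complex.ofReal_sub, Complex.norm_real,
      Real.norm_eq_abs]
    have h6 := sq_diff 1 r (u x) (v x) hr0
    simpa using h6
  refine (tsum_of_norm_bounded hs.hasSum h5).trans ?_
  rw [(h3.mul_left _).tsum_add ((hu.sq.add hv.sq).mul_left _), tsum_mul_left, tsum_mul_left,
    hu.sq.tsum_add hv.sq]
  calc 1 / (2 * r) * ∑' x, ‖u x - v x‖ ^ 2 + r * (∑' x, ‖u x‖ ^ 2 + ∑' x, ‖v x‖ ^ 2) ≤
        1 / (2 * r) * Δ ^ 2 + r * ((t⁻¹) ^ 2 + (t⁻¹) ^ 2) := by gcongr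
    _ = 8 * d * (t⁻¹) ^ 3 / R := by
        rw [hr, hΔ]
        field_simp
        ring

theorem conj_sum (a : Fin d → ℤ) (p : Fin d → ℝ) (u : (Fin d → ℤ) → ℂ) :
    ∑' x, ph p (x - a) * ((‖(fun x => -(starRingEnd ℂ) (u x)) x‖ ^ 2 : ℝ) : ℂ) =
      ∑' x, ph p (x - a) * ((‖u x‖ ^ 2 : ℝ) : ℂ) := by
  refine tsum_congr fun x => ?_
  simp only [norm_neg, Complex.norm_conj]

/-- **the event** -/
theorem gProf (d : ℕ) (hd : 1 ≤ d) (Bd : ℝ → Prop) (γ0 γ1 : ℝ → ℂ) (K : ℝ) (hK : 0 ≤ K)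
    (hEng : EngKv d Bd γ0 γ1 1 (2 * (2 * K)))
    (hpos : ∀ E, Bd E → 0 < (γ0 E).im ∧ 0 ≤ (γ1 E).im ∧ (γ1 E).im ≤ (γ0 E).im) :
    ∃ Y0 : ℝ, 1 ≤ Y0 ∧ ∀ Y : ℝ, Y0 ≤ Y →
    ∃ G : Set ((Fin d → ℤ) → ℝ), MeasurableSet G ∧
      1 - Real.exp (-Real.exp (1 / 1200 * Y)) ≤
        (Measure.infinitePi fun _ : Fin d → ℤ => gam).real G ∧
      ∀ ξ ∈ G, ∀ a : Fin d → ℤ, ‖a‖ ≤ Real.exp (Real.exp (1 / 1200 * Y)) →
      ∀ E η : ℝ, Bd E → Real.exp (-(101 / 50) * Y) ≤ η → η ≤ Real.exp (-(161 / 80) * Y) →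
      ∀ u, Gr d (fun x => Real.exp (-Y) * ξ x) a E η u → ∀ p : Fin d → ℝ,
        ∑ i, p i ^ 2 ≤ K * (η * Real.exp (-2 * Y)) →
        ‖((η : ℝ) : ℂ) * ∑' x, ph p (x - a) * ((‖u x‖ ^ 2 : ℝ) : ℂ) -
          ((Tg γ0 γ1 η (Real.exp (-2 * Y)) E p : ℝ) : ℂ)‖ ≤ Real.exp (-(1 / 310) * Y) := by
  have hd0 : (0 : ℝ) < d := by
    have : 0 < d := by omega
    exact_mod_cast this
  obtain ⟨c0, hc0, hF⟩ := finKv d Bd γ0 γ1 (2 * K) (by positivity) hEng hpos
  obtain ⟨C, hC, hvar⟩ := nu_var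
  obtain ⟨Y1, hY1⟩ := Filter.eventually_atTop.1
    ((eventually_ge_atTop (1 : ℝ)).and
    ((eventually_ge_atTop (2 * |Real.log c0|)).and
    ((ev_lin (Real.log (80 * d)) (101 / 25 + 1 / 310) (1 / 1200) (by norm_num)).and
    ((ev_lin (2 * Real.log (20 * K * C + 1)) (2 / 310) (1 / 1100) (by norm_num)).and
    ((ev_lin (2 * Real.log (2 * C)) 0 (1 / 1100) (by norm_num)).and
    ((ev2 2 (-(1099 / 330000)) (-(1 / 310)) 0 (by norm_num)).and
    ((ev2 2 (-(1100099 / 550000)) (-2) 0 (by norm_num)).and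
    ((ev_exp (Real.log 3) 1 (1 / 1200) (1099 / 111100) (by norm_num) (by norm_num)).and
    (ev_exp (Real.log 12 + d * Real.log 6) (d + 1) (1 / 1200) (1 / 1100) (by norm_num)
      (by norm_num))))))))))
  refine ⟨max Y1 1, le_max_right _ _, fun Y hY => ?_⟩
  obtain ⟨n0, n1, n2, n3, n3', n4, n5, n6, n7⟩ := hY1 Y ((le_max_left _ _).trans hY)
  simp only [pow_zero, mul_one] at n4 n5
  obtain ⟨B, hB⟩ : ∃ B, B = Real.exp (1 / 1100 * Y) := ⟨_, rfl⟩
  have hB0 : 0 < B := by rw [hB]; positivity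
  obtain ⟨R, hR⟩ : ∃ R, R = Real.exp (Real.exp (1 / 1200 * Y)) := ⟨_, rfl⟩
  have hR0 : 0 < R := by rw [hR]; positivity
  have hR1 : 1 ≤ R := by rw [hR]; exact Real.one_le_exp (by positivity)
  obtain ⟨c, hc⟩ : ∃ c, c = Real.exp (-(1099 / 1100) * Y) := ⟨_, rfl⟩
  have hcp : 0 < c := by rw [hc]; positivity
  have hcB : c = Real.exp (-Y) * B := by
    rw [hc, hB, ← Real.exp_add]
    congr 1
    ring
  have hcc0 : c ≤ c0 := by
    have h1 : -|Real.log c0| ≤ Real.log c0 := neg_abs_le _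
    rw [hc, ← Real.exp_log hc0]
    apply Real.exp_le_exp.2
    linarith
  have hcpow : ∀ p : ℝ, c ^ p = Real.exp (-(1099 / 1100) * p * Y) := by
    intro p
    rw [Real.rpow_def_of_pos hcp, hc, Real.log_exp]
    congr 1
    ring
  obtain ⟨x, hx⟩ : ∃ x, x = C * Real.exp (-B / 2) := ⟨_, rfl⟩
  have hx0 : 0 < x := by rw [hx]; positivity
  obtain ⟨σ2, hσ2⟩ : ∃ σ2, σ2 = Real.exp (-2 * Y) := ⟨_, rfl⟩
  have hσ20 : 0 < σ2 := by rw [hσ2]; positivity
  obtain ⟨τ, hτ⟩ : ∃ τ, τ = Real.exp (-(101 / 50) * Y) := ⟨_, rfl⟩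
  have hτ0 : 0 < τ := by rw [hτ]; positivity
  have hτinv : τ⁻¹ = Real.exp (101 / 50 * Y) := by
    rw [hτ, ← Real.exp_neg]
    congr 1
    ring
  have hτp : ∀ n : ℕ, (τ⁻¹) ^ n = Real.exp (n * (101 / 50 * Y)) := by
    intro n
    rw [hτinv, ← Real.exp_nat_mul]
  obtain ⟨e0, he0⟩ : ∃ e0, e0 = Real.exp (-(1 / 310) * Y) := ⟨_, rfl⟩
  have he00 : 0 < e0 := by rw [he0]; positivity
  -- the numerical facts
  have m1 : 8 * d * (τ⁻¹) ^ 2 / R ≤ 1 / 10 * e0 := by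
    rw [div_le_iff₀ hR0, hτp, hR, he0]
    have e1 : (80 : ℝ) * d = Real.exp (Real.log (80 * d)) := by
      rw [Real.exp_log (by positivity)]
    have e2 : Real.exp (Real.log (80 * d)) * Real.exp (101 / 25 * Y) ≤
        Real.exp (-(1 / 310) * Y) * Real.exp (Real.exp (1 / 1200 * Y)) := by
      rw [← Real.exp_add, ← Real.exp_add]
      apply Real.exp_le_exp.2
      linarith
    rw [← e1] at e2
    have e3 : ((2 : ℕ) : ℝ) * (101 / 50 * Y) = 101 / 25 * Y := by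
      push_cast
      ring
    rw [e3]
    linarith
  have m2 : 2 * K * x ≤ 1 / 10 * e0 := by
    have hKC : 0 ≤ K * C := by positivity
    have e1 : 20 * K * C + 1 = Real.exp (Real.log (20 * K * C + 1)) := by
      rw [Real.exp_log (by linarith)]
    have e2 : Real.exp (Real.log (20 * K * C + 1)) * Real.exp (-B / 2) ≤
        Real.exp (-(1 / 310) * Y) := by
      rw [← Real.exp_add]
      apply Real.exp_le_exp.2
      rw [hB]
      linarith
    rw [← e1, ← he0] at e2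
    have e3 := Real.exp_pos (-B / 2)
    rw [hx]
    nlinarith
  have hx2 : x ≤ 1 / 2 := by
    have e1 : 2 * C = Real.exp (Real.log (2 * C)) := by
      rw [Real.exp_log (by positivity)]
    have e2 : Real.exp (Real.log (2 * C)) * Real.exp (-B / 2) ≤ 1 := by
      rw [← Real.exp_add]
      apply Real.exp_le_one_iff.2
      rw [hB]
      linarith
    rw [← e1] at e2
    rw [hx]
    linarith
  have m5 : c ^ (1 / 300 : ℝ) ≤ 1 / 2 * e0 := by
    rw [hcpow, he0]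
    have e1 : -(1099 / 1100) * (1 / 300) * Y = -(1099 / 330000) * Y := by ring
    rw [e1]
    linarith
  -- the law
  have hmm : Measurable fun s : ℝ => -c * cl B s := (cl_meas B).const_mul _
  obtain ⟨μ, hμ⟩ : ∃ μ, μ = gam.map fun s => -c * cl B s := ⟨_, rfl⟩
  have hμp : IsProbabilityMeasure μ := by
    rw [hμ]
    exact Measure.isProbabilityMeasure_map hmm.aemeasurable
  have hμb : ∀ᵐ s ∂μ, |s| ≤ c := by
    rw [hμ, ae_map_iff hmm.aemeasurable (measurableSet_le (by fun_prop) (by fun_prop))]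
    refine Filter.Eventually.of_forall fun s => ?_
    rw [abs_mul, abs_neg, abs_of_pos hcp]
    exact mul_le_of_le_one_right hcp.le (cl_abs hB0 s)
  have hμ0 : ∫ s, s ∂μ = 0 := by
    have h1 := nu_mean hB0
    unfold nu at h1
    rw [integral_map (cl_meas B).aemeasurable (by fun_prop)] at h1
    rw [hμ, integral_map hmm.aemeasurable (by fun_prop), integral_const_mul, h1, mul_zero]
  obtain ⟨s2, hs2⟩ : ∃ s2, ∫ s, s ^ 2 ∂μ = s2 := ⟨_, rfl⟩
  have hs2v : s2 = σ2 * (B ^ 2 * ∫ s, s ^ 2 ∂(nu B)) := by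
    unfold nu
    rw [← hs2, hμ, integral_map hmm.aemeasurable (by fun_prop),
      integral_map (cl_meas B).aemeasurable (by fun_prop)]
    simp only [mul_pow, neg_sq]
    rw [integral_const_mul, hcB, mul_pow, ← mul_assoc]
    congr 2
    rw [hσ2, ← Real.exp_nat_mul]
    congr 1
    push_cast
    ring
  obtain ⟨hv1, hv2⟩ := hvar B hB0
  rw [← hx] at hv2
  have hs2a : s2 ≤ σ2 := by
    rw [hs2v]
    exact mul_le_of_le_one_right hσ20.le hv1
  have hs2b : (1 - x) * σ2 ≤ s2 := by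
    rw [hs2v, mul_comm]
    exact mul_le_mul_of_nonneg_left hv2 hσ20.le
  have hs2h : σ2 ≤ 2 * s2 := by nlinarith
  have hs20 : 0 < s2 := by linarith
  have hcs : c ^ (1001 / 500 : ℝ) ≤ s2 := by
    have h1 : 2 * c ^ (1001 / 500 : ℝ) ≤ σ2 := by
      rw [hcpow, hσ2]
      have e1 : -(1099 / 1100) * (1001 / 500) * Y = -(1100099 / 550000) * Y := by ring
      rw [e1]
      exact n5
    linarith
  have hcτ : c ^ (81 / 40 : ℝ) ≤ τ := by
    rw [hcpow, hτ]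
    apply Real.exp_le_exp.2
    linarith
  have hcτ' : Real.exp (-(161 / 80) * Y) ≤ c ^ (161 / 80 : ℝ) := by
    rw [hcpow]
    apply Real.exp_le_exp.2
    linarith
  obtain ⟨G1, hG1, hP1, hL1⟩ := hF c hcp hcc0 μ hμp hμb hμ0 s2 hs2 hcs
  have hTm : Measurable (fun (ω : (Fin d → ℤ) → ℝ) x => -c * cl B (ω x)) :=
    measurable_pi_lambda _ fun x => hmm.comp (measurable_pi_apply x)
  have hlaw : (Measure.infinitePi fun _ : Fin d → ℤ => gam).map (fun ω x => -c * cl B (ω x)) =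
      Measure.infinitePi fun _ : Fin d → ℤ => μ := by
    rw [hμ]
    exact Measure.infinitePi_map_pi (μ := fun _ : Fin d → ℤ => gam)
      (f := fun _ (s : ℝ) => -c * cl B s) (fun _ => hmm)
  have hP1' : 1 - Real.exp (-c ^ (-(1 / 101) : ℝ)) ≤
      (Measure.infinitePi fun _ : Fin d → ℤ => gam).real
        ((fun (ω : (Fin d → ℤ) → ℝ) x => -c * cl B (ω x)) ⁻¹' G1) := by
    rw [← map_measureReal_apply hTm hG1, hlaw]
    exact hP1
  have hbig := Big_prob d B (2 * R) (4 * Real.exp (-B)) (by linarith) (tail B)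
  have hq0 : c ^ (-(1 / 101) : ℝ) = Real.exp (1099 / 111100 * Y) := by
    rw [hcpow]
    congr 1
    ring
  have hq1 : Real.exp (-c ^ (-(1 / 101) : ℝ)) ≤ 1 / 3 * Real.exp (-Real.exp (1 / 1200 * Y)) := by
    have e1 : (1 : ℝ) / 3 = Real.exp (-Real.log 3) := by
      rw [Real.exp_neg, Real.exp_log (by norm_num), one_div]
    rw [e1, ← Real.exp_add, hq0]
    apply Real.exp_le_exp.2
    linarith
  have hq2 : (3 * (2 * R)) ^ d * (4 * Real.exp (-B)) ≤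
      1 / 3 * Real.exp (-Real.exp (1 / 1200 * Y)) := by
    have e1 : (3 * (2 * R)) = Real.exp (Real.log 6 + Real.exp (1 / 1200 * Y)) := by
      rw [Real.exp_add, Real.exp_log (by norm_num), hR]
      ring
    have e2 : (3 * (2 * R)) ^ d = Real.exp (d * (Real.log 6 + Real.exp (1 / 1200 * Y))) := by
      rw [e1, ← Real.exp_nat_mul]
    have e3 : Real.log 12 = Real.log 3 + Real.log 4 := by
      rw [← Real.log_mul (by norm_num) (by norm_num)]
      norm_num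
    have e4 : (4 : ℝ) = Real.exp (Real.log 4) := by rw [Real.exp_log (by norm_num)]
    have e5 : (1 : ℝ) / 3 = Real.exp (-Real.log 3) := by
      rw [Real.exp_neg, Real.exp_log (by norm_num), one_div]
    rw [e2, e5]
    conv_lhs => rw [e4]
    rw [← Real.exp_add, ← Real.exp_add, ← Real.exp_add]
    apply Real.exp_le_exp.2
    rw [hB]
    linarith
  refine ⟨((fun (ω : (Fin d → ℤ) → ℝ) x => -c * cl B (ω x)) ⁻¹' G1) ∩ Set.univ ∩
    (Big d B (2 * R))ᶜ, ((hTm hG1).inter MeasurableSet.univ).inter (Big_meas d B (2 * R)).compl,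
    ?_, ?_⟩
  · have h3 := prob_inter (Measure.infinitePi fun _ : Fin d → ℤ => gam) _ _ _ _ 0 _ (hTm hG1)
      MeasurableSet.univ (Big_meas d B (2 * R)) hP1' (by rw [probReal_univ]; norm_num) hbig
    have h4 := Real.exp_pos (-Real.exp (1 / 1200 * Y))
    linarith
  · rintro ξ ⟨⟨hξ1, -⟩, hξ3⟩ a ha E η hE hη1 hη2 u hu p hp
    obtain ⟨hωb, hL⟩ := hL1 _ hξ1
    rw [← hR] at ha
    rw [← hτ] at hη1
    rw [← hσ2] at hp ⊢
    rw [← he0]
    have hη0 : 0 < η := hτ0.trans_le hη1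
    obtain ⟨V', hV'⟩ : ∃ V' : (Fin d → ℤ) → ℝ, V' = fun x => c * cl B (ξ x) := ⟨_, rfl⟩
    have hVV : ∀ x : Fin d → ℤ, ‖x‖ < 2 * R → (fun x => Real.exp (-Y) * ξ x) x = V' x := by
      intro x hx
      have hle : |ξ x| ≤ B := by
        by_contra hcon
        exact hξ3 ⟨x, hx, not_le.1 hcon⟩
      have h4 := cl_eq hB0 hle
      rw [hV', hcB]
      simp only
      rw [mul_assoc, h4]
    have hV'b : ∀ x, |V' x| ≤ c := by
      intro x
      rw [hV', abs_mul, abs_of_pos hcp]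
      exact mul_le_of_le_one_right hcp.le (cl_abs hB0 _)
    obtain ⟨v, hv⟩ := gr_bdd V' c hV'b a E η hη0
    have hωV : ∀ x, (fun x => -c * cl B (ξ x)) x = -V' x := by
      intro x
      rw [hV']
      ring
    have hRv := gr_Rs hv _ hωV
    have ha2 : ‖a‖ ≤ Real.exp (c ^ (-(1 / 101) : ℝ)) := by
      refine ha.trans ?_
      rw [hR, hq0]
      apply Real.exp_le_exp.2
      apply Real.exp_le_exp.2
      linarith
    have hEE : 2 * (d : ℝ) - (2 * d - E) = E := by ring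
    have h4 := hL a ha2 (2 * d - E) (by
      rw [hEE]
      exact hE) η (hcτ.trans hη1) (hη2.trans hcτ') _ hRv p (by
      refine hp.trans ?_
      calc K * (η * σ2) ≤ K * (η * (2 * s2)) := by gcongr
        _ = _ := by ring)
    rw [conj_sum, hEE] at h4
    have h5 := ch_transfer hu hv hη0 R hR0 ha hVV hd p
    obtain ⟨q1, q2, q3⟩ := hpos E hE
    have h6 := Tg_diff γ0 γ1 s2 σ2 η E (x * σ2) K p hs20 hs2a (by linarith) hη0 hK (by
      rw [mul_comm σ2 η]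
      exact hp) q1 q2 q3
    have hTc : ∀ t s : ℝ, Tg γ0 γ1 t s E p = Tg γ0 γ1 s t E p := by
      intro t s
      unfold Tg
      rw [mul_comm t s]
    rw [hTc s2 η, hTc σ2 η] at h6
    have h7 : K * (x * σ2 * s2⁻¹) ≤ 2 * K * x := by
      have h8 : σ2 * s2⁻¹ ≤ 2 := by
        rw [← div_eq_mul_inv, div_le_iff₀ hs20]
        exact hs2h
      calc K * (x * σ2 * s2⁻¹) = K * x * (σ2 * s2⁻¹) := by ring
        _ ≤ K * x * 2 := by gcongr
        _ = _ := by ring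
    obtain ⟨Su, hSu⟩ : ∃ Su, Su = ∑' x, ph p (x - a) * ((‖u x‖ ^ 2 : ℝ) : ℂ) := ⟨_, rfl⟩
    obtain ⟨Sv, hSv⟩ : ∃ Sv, Sv = ∑' x, ph p (x - a) * ((‖v x‖ ^ 2 : ℝ) : ℂ) := ⟨_, rfl⟩
    rw [← hSu] at h5 ⊢
    rw [← hSv] at h4 h5
    have h9 : ((η : ℝ) : ℂ) * Su - ((Tg γ0 γ1 η σ2 E p : ℝ) : ℂ) =
        ((η : ℝ) : ℂ) * (Su - Sv) + (((η : ℝ) : ℂ) * Sv - ((Tg γ0 γ1 η s2 E p : ℝ) : ℂ)) +
        ((Tg γ0 γ1 η s2 E p - Tg γ0 γ1 η σ2 E p : ℝ) : ℂ) := by
      push_cast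
      ring
    rw [h9]
    have h10 : ‖((η : ℝ) : ℂ) * (Su - Sv)‖ ≤ 1 / 10 * e0 := by
      rw [norm_mul, Complex.norm_real, Real.norm_of_nonneg hη0.le]
      refine le_trans ?_ m1
      calc η * ‖Su - Sv‖ ≤ η * (8 * d * (η⁻¹) ^ 3 / R) := by gcongr
        _ = 8 * d * (η⁻¹) ^ 2 / R := by
          field_simp
        _ ≤ 8 * d * (τ⁻¹) ^ 2 / R := by gcongr
    refine (norm_add_le _ _).trans ?_
    refine (add_le_add (norm_add_le _ _) le_rfl).trans ?_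
    rw [Complex.norm_real, Real.norm_eq_abs]
    linarith

end Pool.Agent.X133.GK
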